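import Pool.Agent.H500.SV.Stm

/-! S_Psi for helper500: extension of reduction maps to the ring of all algebraic integers. -/

set_option autoImplicit false

namespace Pool.Agent.H747.SV.Psi

open NumberField IsDedekindDomain
open Pool.Agent.H500.HC (QBar ZBar jz)

theorem main : Pool.Agent.H500.SV.S_Psi := by
  intro E E' _ _ _ _ i j' lam lam' hc k _ _ φ hφ
  let algZ : Algebra (𝓞 E') ZBar := (jz j').toAlgebra
  have hint : Algebra.IsIntegral (𝓞 E') ZBar :=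
    ⟨fun x => (RingOfIntegers.isIntegral x).tower_top⟩
  have hinj : RingHom.ker (algebraMap (𝓞 E') ZBar) ≤ lam'.asIdeal := by
    have h : RingHom.ker (jz j') = ⊥ := (RingHom.injective_iff_ker_eq_bot _).1 (by
      intro x y hxy
      have h1 : j' (x : E') = j' (y : E') := congrArg (fun z : ZBar => (z : QBar)) hxy
      exact RingOfIntegers.ext (j'.injective h1))
    have h2 : RingHom.ker (algebraMap (𝓞 E') ZBar) = ⊥ := h
    rw [h2]
    exact bot_le
  have := lam'.isMaximal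
  obtain ⟨Q, hQm, hQ⟩ := Ideal.exists_ideal_over_maximal_of_isIntegral lam'.asIdeal hinj
  have := hQm
  have hQ' : ∀ x : 𝓞 E', jz j' x ∈ Q ↔ x ∈ lam'.asIdeal := by
    intro x
    rw [← hQ]
    rfl
  have hjj : ∀ x : 𝓞 E, jz (j'.comp i) x = jz j' (RingOfIntegers.mapRingHom i x) := by
    intro x
    exact RingOfIntegers.ext rfl
  have hlam : ∀ x : 𝓞 E, jz (j'.comp i) x ∈ Q ↔ x ∈ lam.asIdeal := by
    intro x
    rw [hjj, hQ', ← hc]
    rfl
  let fκ : Field (ZBar ⧸ Q) := Ideal.Quotient.field Q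
  have := lam.isMaximal
  let fF : Field (𝓞 E ⧸ lam.asIdeal) := Ideal.Quotient.field lam.asIdeal
  let g : (𝓞 E ⧸ lam.asIdeal) →+* (ZBar ⧸ Q) := Ideal.Quotient.lift lam.asIdeal
    ((Ideal.Quotient.mk Q).comp (jz (j'.comp i)))
    (fun x hx => Ideal.Quotient.eq_zero_iff_mem.2 ((hlam x).2 hx))
  let φ' : (𝓞 E ⧸ lam.asIdeal) →+* k := Ideal.Quotient.lift lam.asIdeal φ
    (fun x hx => by
      rw [← hφ] at hx
      exact hx)
  let a1 : Algebra (𝓞 E ⧸ lam.asIdeal) (ZBar ⧸ Q) := g.toAlgebra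
  let a2 : Algebra (𝓞 E ⧸ lam.asIdeal) k := φ'.toAlgebra
  have halg : Algebra.IsAlgebraic (𝓞 E ⧸ lam.asIdeal) (ZBar ⧸ Q) := by
    refine ⟨fun y => ?_⟩
    obtain ⟨x, rfl⟩ := Ideal.Quotient.mk_surjective y
    have h1 : IsIntegral ℤ x := RingOfIntegers.isIntegral x
    have h2 : IsIntegral ℤ (Ideal.Quotient.mk Q x) := h1.map (Ideal.Quotient.mkₐ ℤ Q)
    exact (h2.tower_top (A := 𝓞 E ⧸ lam.asIdeal)).isAlgebraic
  let L : (ZBar ⧸ Q) →ₐ[𝓞 E ⧸ lam.asIdeal] k := IsAlgClosed.lift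
  refine ⟨L.toRingHom.comp (Ideal.Quotient.mk Q), ?_, ?_⟩
  · ext x
    rw [RingHom.mem_ker, ← hQ' x, ← Ideal.Quotient.eq_zero_iff_mem]
    show L (Ideal.Quotient.mk Q (jz j' x)) = 0 ↔ _
    exact map_eq_zero L
  · ext x
    show L (Ideal.Quotient.mk Q (jz (j'.comp i) x)) = φ x
    have h1 : Ideal.Quotient.mk Q (jz (j'.comp i) x) =
        algebraMap (𝓞 E ⧸ lam.asIdeal) (ZBar ⧸ Q) (Ideal.Quotient.mk lam.asIdeal x) := rfl
    rw [h1, L.commutes]
    rfl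

end Pool.Agent.H747.SV.Psi
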